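import Pool.Agent.Helper69.DC.Goals
import Mathlib.RingTheory.MvPolynomial.IrreducibleQuadratic

/-!
# Packet DC-X: a solution of the differential equation is not divisible by `X²`
-/

namespace Pool.Agent.Helper13.DC

open MvPolynomial Finset ComplexConjugate
open Pool.Agent.Helper69.DC

theorem pderiv_xp {m : ℕ} (β v : Fin m → ℂ) (i : Fin m) :
    pderiv i (xp β v) = C (conj (v i)) := by
  unfold xp
  rw [map_sum, Finset.sum_eq_single i]
  · simp
  · intro j _ hj
    simp [pderiv_X_of_ne hj]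
  · intro h
    exact absurd (mem_univ i) h

theorem eval_xp {m : ℕ} (β v : Fin m → ℂ) : eval β (xp β v) = 0 := by
  unfold xp
  rw [map_sum]
  exact sum_eq_zero fun i _ => by simp

theorem totalDegree_xp_le {m : ℕ} (β v : Fin m → ℂ) : (xp β v).totalDegree ≤ 1 := by
  unfold xp
  refine totalDegree_finsetSum_le fun i _ => ?_
  refine (totalDegree_mul _ _).trans ?_
  rw [totalDegree_C, zero_add]
  refine (totalDegree_sub_C_le _ _).trans ?_
  rw [totalDegree_X]

theorem prime_xp {m : ℕ} (β v : Fin m → ℂ) {i : Fin m} (hv : v i ≠ 0) : Prime (xp β v) := by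
  have hd : (xp β v).totalDegree = 1 := by
    refine le_antisymm (totalDegree_xp_le β v) (Nat.one_le_iff_ne_zero.2 fun h0 => ?_)
    rw [totalDegree_eq_zero_iff_eq_C] at h0
    have h1 := pderiv_xp β v i
    rw [h0, pderiv_C] at h1
    have h2 : conj (v i) = 0 := by
      have := congrArg (eval β) h1.symm
      simpa using this
    exact hv (by simpa using h2)
  refine (irreducible_of_totalDegree_eq_one hd fun x hx => ?_).prime
  refine isUnit_iff_ne_zero.2 fun h0 => ?_
  have h2 : xp β v = 0 := by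
    ext s
    have := hx s
    rw [h0, zero_dvd_iff] at this
    rw [this, coeff_zero]
  rw [h2, totalDegree_zero] at hd
  exact absurd hd (by norm_num)

/-- The coefficients of the symbol. -/
noncomputable def cv {m : ℕ} (v : Fin m → ℂ) : Fin (m + 1) → MvPolynomial (Fin m) ℂ :=
  Fin.cons 0 fun i => C (conj (v i))

theorem D1_pow {m : ℕ} (β v : Fin m → ℂ) (i : Fin (m + 1)) (k : ℕ) (r : MvPolynomial (Fin m) ℂ) :
    ∃ t, D1 i (xp β v ^ (k + 1) * r) =
      xp β v ^ k * (C ((k : ℂ) + 1) * cv v i * r + xp β v * t) := by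
  refine Fin.cases ?_ (fun i => ?_) i
  · refine ⟨r, ?_⟩
    show xp β v ^ (k + 1) * r = _
    simp only [cv, Fin.cons_zero]
    ring
  · refine ⟨pderiv i r, ?_⟩
    show pderiv i (xp β v ^ (k + 1) * r) = _
    rw [pderiv_mul, pderiv_pow, pderiv_xp]
    simp only [cv, Fin.cons_succ, Nat.add_sub_cancel, Nat.cast_add, Nat.cast_one, map_add, map_one,
      map_natCast]
    ring

theorem D1_D1 {m : ℕ} (β v : Fin m → ℂ) (i j : Fin (m + 1)) (n : ℕ)
    (r : MvPolynomial (Fin m) ℂ) :
    ∃ t, D1 i (D1 j (xp β v ^ (n + 2) * r)) =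
      xp β v ^ n * (C (((n : ℂ) + 1) * ((n : ℂ) + 2)) * (cv v i * cv v j) * r + xp β v * t) := by
  obtain ⟨t, ht⟩ := D1_pow β v j (n + 1) r
  rw [show n + 2 = (n + 1) + 1 from rfl, ht]
  obtain ⟨t', ht'⟩ := D1_pow β v i n
    (C (((n + 1 : ℕ) : ℂ) + 1) * cv v j * r + xp β v * t)
  refine ⟨C ((n : ℂ) + 1) * cv v i * t + t', ?_⟩
  rw [ht']
  have e : C (((n : ℂ) + 1) * ((n : ℂ) + 2)) =
      C ((n : ℂ) + 1) * (C (((n + 1 : ℕ) : ℂ) + 1) : MvPolynomial (Fin m) ℂ) := by
    rw [← C_mul]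
    congr 1
    push_cast
    ring
  rw [e]
  ring

theorem g_x : Pool.Agent.Helper69.DC.G_X := by
  intro m β v Q h hsum hdvd hne
  by_contra hh
  -- v is not zero
  obtain ⟨i0, hi0⟩ : ∃ i, v i ≠ 0 := by
    by_contra hc
    push Not at hc
    exact hne (sum_eq_zero fun i _ => sum_eq_zero fun j _ => by rw [hc i]; simp)
  have hP := prime_xp β v hi0
  obtain ⟨r, hr, hnr⟩ :=
    (FiniteMultiplicity.of_not_isUnit hP.not_isUnit hh).exists_eq_pow_mul_and_not_dvd
  set k := multiplicity (xp β v) h with hk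
  have hk2 : 2 ≤ k := by
    by_contra hlt
    have h1 : xp β v ^ (k + 1) ∣ h := (pow_dvd_pow _ (by omega)).trans hdvd
    rw [hr] at h1
    rw [pow_succ] at h1
    exact hnr ((mul_dvd_mul_iff_left (pow_ne_zero _ hP.ne_zero)).1 h1)
  obtain ⟨n, hn⟩ : ∃ n, k = n + 2 := ⟨k - 2, by omega⟩
  rw [hn] at hr
  choose t ht using fun i j => D1_D1 β v i j n r
  have h2 : xp β v ^ n * (C (((n : ℂ) + 1) * ((n : ℂ) + 2)) *
      (∑ i, ∑ j, Q i j * (cv v i * cv v j)) * r + xp β v * ∑ i, ∑ j, Q i j * t i j) = 0 := by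
    rw [← hsum, hr]
    simp only [ht]
    simp only [mul_sum, sum_mul, ← sum_add_distrib, mul_add]
    refine sum_congr rfl fun i _ => sum_congr rfl fun j _ => by ring
  have h3 := (mul_eq_zero.1 h2).resolve_left (pow_ne_zero _ hP.ne_zero)
  have h4 : xp β v ∣ C (((n : ℂ) + 1) * ((n : ℂ) + 2)) *
      (∑ i, ∑ j, Q i j * (cv v i * cv v j)) * r :=
    ⟨-(∑ i, ∑ j, Q i j * t i j), by linear_combination h3⟩
  rcases hP.dvd_or_dvd h4 with h5 | h5
  · rcases hP.dvd_or_dvd h5 with ⟨w, hw⟩ | ⟨w, hw⟩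
    · have := congrArg (eval β) hw
      rw [map_mul (eval β) (xp β v) w, eval_xp, zero_mul, eval_C] at this
      have h6 : ((n : ℂ) + 1) ≠ 0 := by exact_mod_cast Nat.succ_ne_zero n
      have h7 : ((n : ℂ) + 2) ≠ 0 := by exact_mod_cast Nat.succ_ne_zero (n + 1)
      exact mul_ne_zero h6 h7 this
    · have := congrArg (eval β) hw
      rw [map_mul (eval β) (xp β v) w, eval_xp, zero_mul] at this
      apply hne
      rw [← this]
      rw [Fin.sum_univ_succ]
      simp only [Fin.sum_univ_succ, cv, Fin.cons_zero, Fin.cons_succ, mul_zero, zero_mul, zero_add,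
        sum_const_zero, map_sum, map_mul, eval_C]
      refine sum_congr rfl fun i _ => sum_congr rfl fun j _ => by ring
  · exact hnr h5

end Pool.Agent.Helper13.DC
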